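import Pool.Agent.PCL.Stmts

/-!
# Row KAP of squad PCL (MP_1fc801_co): the line of `e` is rich
-/

set_option autoImplicit false

namespace Pool.Agent.PCL.H81

open Finset

/-- `pt g` as a homomorphism -/
noncomputable def ptH {ι : Type} [Fintype ι] (g : ι → ℂ) : (ι → ℤ) →+ ℂ where
  toFun := pt g
  map_zero' := pt_zero g
  map_add' := pt_add g

theorem pt_sum {ι κ : Type} [Fintype ι] (g : ι → ℂ) (S : Finset κ) (f : κ → ι → ℤ) :
    pt g (∑ j ∈ S, f j) = ∑ j ∈ S, pt g (f j) := map_sum (ptH g) f S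

theorem lin {ι : Type} [Fintype ι] {g : ι → ℂ} {m : ℕ} {θ : Fin m → ℝ}
    (hθ : LinearIndependent ℚ θ) {z : Fin m → ι → ℤ} {v : ℂ} (hv : v ≠ 0)
    (hz : ∀ j, pt g (z j) = θ j * v) : LinearIndependent ℤ z := by
  rw [Fintype.linearIndependent_iff] at hθ ⊢
  intro c hc
  have h1 : pt g (∑ j, c j • z j) = 0 := by
    rw [hc]
    exact pt_zero g
  rw [pt_sum] at h1
  have h2 : (∑ j, (c j : ℂ) * θ j) * v = 0 := by
    rw [← h1, Finset.sum_mul]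
    refine Finset.sum_congr rfl fun j _ => ?_
    rw [pt_smul, hz]
    ring
  have h3 : ∑ j, (c j : ℂ) * θ j = 0 := (mul_eq_zero.mp h2).resolve_right hv
  have h4 : ∑ j, (c j : ℝ) * θ j = 0 := by exact_mod_cast h3
  have h5 := hθ (fun j => (c j : ℚ)) (by
    rw [← h4]
    refine Finset.sum_congr rfl fun j _ => ?_
    rw [Algebra.smul_def]
    simp)
  intro j
  have := h5 j
  exact_mod_cast this

theorem rank_disj {ι : Type} [Fintype ι] {L M : Submodule ℤ (ι → ℤ)} (h : Disjoint L M) :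
    Module.finrank ℤ L + Module.finrank ℤ M ≤ Fintype.card ι := by
  have h1 := Submodule.rank_sup_add_rank_inf_eq L M
  rw [h.eq_bot, rank_bot, add_zero] at h1
  have h2 : Module.rank ℤ (L ⊔ M : Submodule ℤ (ι → ℤ)) ≤ Module.rank ℤ (ι → ℤ) :=
    Submodule.rank_le _
  rw [h1, ← Module.finrank_eq_rank, ← Module.finrank_eq_rank, ← Module.finrank_eq_rank,
    Module.finrank_fintype_fun_eq_card] at h2
  exact_mod_cast h2

theorem le_rank {ι : Type} [Fintype ι] {m : ℕ} {L : Submodule ℤ (ι → ℤ)} {z : Fin m → ι → ℤ}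
    (hz : LinearIndependent ℤ z) (hL : ∀ j, z j ∈ L) : m ≤ Module.finrank ℤ L := by
  have h1 : LinearIndependent ℤ (fun j => (⟨z j, hL j⟩ : L)) :=
    LinearIndependent.of_comp L.subtype hz
  have h2 := h1.fintype_card_le_finrank
  rwa [Fintype.card_fin] at h2

/-- `c` divides `D` if it divides all `M s * D` and no prime divides all `M s`. -/
theorem dvd_of_prim {σ : Type} {c : ℕ} {D : ℤ} {M : σ → ℤ} (h : ∀ s, (c : ℤ) ∣ M s * D)
    (hM : ∀ p : ℕ, p.Prime → ∃ s, ¬ (p : ℤ) ∣ M s) : (c : ℤ) ∣ D := by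
  rw [← Int.dvd_natAbs, Int.natCast_dvd_natCast, Nat.dvd_iff_prime_pow_dvd_dvd]
  intro p k hp hpk
  obtain ⟨s, hs⟩ := hM p hp
  have h1 : ((p ^ k : ℕ) : ℤ) ∣ M s * D := (Int.natCast_dvd_natCast.mpr hpk).trans (h s)
  have h2 : IsCoprime ((p ^ k : ℕ) : ℤ) (M s) := by
    push_cast
    exact ((Nat.prime_iff_prime_int.mp hp).coprime_iff_not_dvd.mpr hs).pow_left
  have h3 := h2.dvd_of_dvd_mul_left h1
  rw [← Int.natCast_dvd_natCast, Int.dvd_natAbs]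
  exact h3

/-- One line of the pencil. -/
theorem one_line (hfac : FacStmt) (hidx : IdxStmt) (hply : PlyStmt) {ι : Type} [Fintype ι]
    [DecidableEq ι] {g : ι → ℂ} {N : ι → ℕ} {m : ℕ} {w e : ι → ℤ} {X Y : Fin m → ι → ℤ}
    {θ : Fin m → ℝ} {Δ : ℤ} (hN : ∀ i, 1 ≤ N i) (hwe : ∀ t : ℝ, pt g w ≠ t * pt g e)
    (hP : Pen g w e X Y θ) {a : ℤ}
    (hr : Module.finrank ℤ (Lat g (pt g (w + a • e))) = m)
    (hu : ∃ u : Fin m → ι → ℤ, LinearIndependent ℤ u ∧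
        ∀ k, u k ∈ Lat g (pt g (w + a • e)) ∧ InB N 8 (u k))
    (hΔ : ∀ (b : Fin m → ι → ℤ) (G : Matrix (Fin m) (Fin m) ℤ),
      (∀ j, X j + a • Y j = ∑ k, G k j • b k) → G.det ∣ Δ) :
    ∃ D : ℕ, 0 < D ∧ (D : ℤ) ∣ Δ ∧ (∀ s, (D : ℤ) ∣ (pf X Y s).eval a) ∧
      ∀ s : Fin m → ι, |((((pf X Y s).eval a : ℤ)) : ℝ)| * cnt (Lat g (pt g (w + a • e))) N 8 ≤
        (24 * ((m : ℝ) + 1)) ^ m * (∏ i, (N (s i) : ℝ)) * D := by
  have hv : pt g (w + a • e) ≠ 0 := by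
    intro h
    rw [pt_add, pt_smul] at h
    apply hwe (-(a : ℝ))
    push_cast
    linear_combination h
  have hz : ∀ j, pt g (X j + a • Y j) = θ j * pt g (w + a • e) := by
    intro j
    rw [pt_add, pt_smul, pt_add, pt_smul, hP.hX, hP.hY]
    ring
  have hzL : ∀ j, (fun j => X j + a • Y j) j ∈ Lat g (pt g (w + a • e)) := fun j =>
    mem_Lat.mpr ⟨θ j, hz j⟩
  have hzi : LinearIndependent ℤ (fun j => X j + a • Y j) := lin hP.ind hv hz
  obtain ⟨G, hG1, hG2, hG3⟩ := hfac ι m (Lat g (pt g (w + a • e)))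
    (Module.finBasisOfFinrankEq ℤ _ hr) (fun j => X j + a • Y j) hzL
  have hev : ∀ s, (pf X Y s).eval a =
      mn (fun k => ((Module.finBasisOfFinrankEq ℤ _ hr) k : ι → ℤ)) s * G.det := fun s => by
    rw [(hply ι m X Y s).2.2 a]
    exact hG2 s
  refine ⟨G.det.natAbs, Int.natAbs_pos.mpr (hG3 hzi), ?_, ?_, ?_⟩
  · rw [Int.natAbs_dvd]
    exact hΔ _ G hG1
  · intro s
    rw [Int.natAbs_dvd, hev s]
    exact dvd_mul_left _ _
  · intro s
    have h1 := hidx ι N m (Lat g (pt g (w + a • e))) (Module.finBasisOfFinrankEq ℤ _ hr) s 8 hN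
      (by norm_num) hu
    rw [hev s]
    rw [Int.cast_mul, abs_mul, Nat.cast_natAbs, Int.cast_abs]
    calc |(mn (fun k => ((Module.finBasisOfFinrankEq ℤ _ hr) k : ι → ℤ)) s : ℝ)| *
          |(G.det : ℝ)| * cnt (Lat g (pt g (w + a • e))) N 8 =
        (|(mn (fun k => ((Module.finBasisOfFinrankEq ℤ _ hr) k : ι → ℤ)) s : ℝ)| *
          cnt (Lat g (pt g (w + a • e))) N 8) * |(G.det : ℝ)| := by ring
      _ ≤ ((3 * ((m : ℝ) + 1) * 8) ^ m * ∏ i, (N (s i) : ℝ)) * |(G.det : ℝ)| :=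
        mul_le_mul_of_nonneg_right h1 (abs_nonneg _)
      _ = (24 * ((m : ℝ) + 1)) ^ m * (∏ i, (N (s i) : ℝ)) * |(G.det : ℝ)| := by
        congr 3
        ring

/-- **KAP** -/
theorem kap (hfac : FacStmt) (hidx : IdxStmt) (hlow : LowStmt) (hprm : PrmStmt) (hply : PlyStmt)
    (harc : ArcStmt) (hari : AriStmt) (hctn : CtnStmt) : KapStmt := by
  classical
  intro ι _ _ g N m w e A R X Y θ Δ k₀ δ y Z k hN hg hm hcard he hwe hP hA hk₀ hδ hδ1 hAc h4m hΔ0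
    hΔ hy hZ hk hc1 hc2 hc3 hc4
  obtain ⟨U, hU⟩ : ∃ U : ℝ, U = 2 * (R : ℝ) + 1 := ⟨_, rfl⟩
  rw [← hU] at hAc h4m hc4 ⊢
  have hmr : (1 : ℝ) ≤ m := by exact_mod_cast hm
  have hm0 : (0 : ℝ) < m := by linarith
  have hU0 : 0 < U := by
    rw [hU]
    positivity
  have hδU : 0 < δ * U := mul_pos hδ hU0
  -- the rank of the lattice of `e`
  have hAne : A.Nonempty := by
    rw [← Finset.card_pos]
    have : (0 : ℝ) < A.card := by linarith
    exact_mod_cast this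
  have hYL : ∀ j, Y j ∈ Lat g (pt g e) := fun j => mem_Lat.mpr ⟨θ j, hP.hY j⟩
  have hYi : LinearIndependent ℤ Y := lin hP.ind he hP.hY
  have hre : Module.finrank ℤ (Lat g (pt g e)) = m := by
    refine le_antisymm ?_ (le_rank hYi hYL)
    obtain ⟨a, ha⟩ := hAne
    have hd : Disjoint (Lat g (pt g (w + a • e))) (Lat g (pt g e)) := by
      refine (Lat_disj hg ?_).symm
      intro t ht
      rw [pt_add, pt_smul] at ht
      apply hwe (t - a)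
      push_cast
      linear_combination ht
    have h1 := rank_disj hd
    rw [(hA a ha).2.1, hcard] at h1
    omega
  obtain ⟨b, hb⟩ : ∃ b : Module.Basis (Fin m) ℤ (Lat g (pt g e)),
    b = Module.finBasisOfFinrankEq ℤ _ hre := ⟨_, rfl⟩
  obtain ⟨Ge, hGe1, hGe2, hGe3⟩ := hfac ι m (Lat g (pt g e)) b Y hYL
  have hGe0 := hGe3 hYi
  obtain ⟨μ, hμ⟩ : ∃ μ : (Fin m → ι) → ℤ, μ = mn (fun k => (b k : ι → ℤ)) := ⟨_, rfl⟩
  rw [← hμ] at hGe2
  have hμp : ∀ p : ℕ, p.Prime → ∃ s, ¬ (p : ℤ) ∣ μ s := by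
    intro p hp
    rw [hμ]
    refine hprm ι m (Lat g (pt g e)) b p hp ?_
    intro x hx
    exact Lat_sat (by exact_mod_cast hp.ne_zero) hx
  -- the selection `s₁`
  have hprod : ∀ s : Fin m → ι, 0 < ∏ i, (N (s i) : ℝ) := fun s =>
    Finset.prod_pos fun i _ => by exact_mod_cast hN (s i)
  obtain ⟨s₁, hs₁, hmax⟩ : ∃ s₁ : Fin m → ι, μ s₁ ≠ 0 ∧ ∀ s', |(μ s' : ℝ)| *
      ∏ i, (N (s₁ i) : ℝ) ≤ |(μ s₁ : ℝ)| * ∏ i, (N (s' i) : ℝ) := by
    obtain ⟨s, hs⟩ := hμp 2 Nat.prime_two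
    have : Nonempty (Fin m → ι) := ⟨s⟩
    obtain ⟨s₁, h1⟩ := Finite.exists_max (fun s : Fin m → ι => |(μ s : ℝ)| / ∏ i, (N (s i) : ℝ))
    have h2 : ∀ s', |(μ s' : ℝ)| * ∏ i, (N (s₁ i) : ℝ) ≤ |(μ s₁ : ℝ)| * ∏ i, (N (s' i) : ℝ) := by
      intro s'
      have h3 := h1 s'
      rw [div_le_div_iff₀ (hprod _) (hprod _)] at h3
      exact h3
    refine ⟨s₁, ?_, h2⟩
    intro h0
    have h4 := h2 s
    rw [h0, Int.cast_zero, abs_zero, zero_mul] at h4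
    have h5 : (μ s : ℝ) ≠ 0 := by
      intro h6
      apply hs
      have : μ s = 0 := by exact_mod_cast h6
      rw [this]
      exact dvd_zero _
    have h6 := mul_pos (abs_pos.mpr h5) (hprod s₁)
    linarith
  -- the number `η`
  obtain ⟨η, hη⟩ : ∃ η : ℕ, η = ⌊δ * U / (2 * m)⌋₊ := ⟨_, rfl⟩
  have hη1 : 1 ≤ η := by
    rw [hη, Nat.one_le_floor_iff, le_div_iff₀ (by positivity)]
    linarith
  have hη2 : (m : ℝ) * η ≤ δ * U / 2 := by
    have h1 : (η : ℝ) ≤ δ * U / (2 * m) := by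
      rw [hη]
      exact Nat.floor_le (by positivity)
    calc (m : ℝ) * η ≤ m * (δ * U / (2 * m)) := mul_le_mul_of_nonneg_left h1 hm0.le
      _ = δ * U / 2 := by field_simp
  have hη3 : δ * U / (4 * m) ≤ η := by
    have h1 : δ * U / (2 * m) < η + 1 := by
      rw [hη]
      exact Nat.lt_floor_add_one _
    have h2 : δ * U / (2 * m) = 2 * (δ * U / (4 * m)) := by
      field_simp
      ring
    have h3 : 1 ≤ δ * U / (4 * m) := by
      rw [le_div_iff₀ (by positivity)]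
      linarith
    linarith
  -- the good elements
  obtain ⟨F, hF⟩ : ∃ F : (Fin m → ι) → Polynomial ℤ, F = pf X Y := ⟨_, rfl⟩
  have hFd : ∀ s, (F s).natDegree ≤ m := fun s => by
    rw [hF]
    exact (hply ι m X Y s).1
  have hFc : ∀ s, (F s).coeff m = μ s * Ge.det := fun s => by
    rw [hF, (hply ι m X Y s).2.1]
    exact hGe2 s
  obtain ⟨A₁, hA₁⟩ : ∃ A₁ : Finset ℤ, A₁ = A.filter (fun a =>
    ¬ ((m : ℝ) + 1) * |(((F s₁).eval a : ℤ) : ℝ)| < |((F s₁).coeff m : ℝ)| * (η : ℝ) ^ m) :=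
    ⟨_, rfl⟩
  have hA₁A : A₁ ⊆ A := by
    rw [hA₁]
    exact Finset.filter_subset _ _
  have hA₁c : δ / 2 * U ≤ A₁.card := by
    have h1 := harc m (F s₁) (A.filter (fun a => ((m : ℝ) + 1) * |(((F s₁).eval a : ℤ) : ℝ)| <
      |((F s₁).coeff m : ℝ)| * (η : ℝ) ^ m)) η hη1 (hFd s₁)
      (fun a ha => (Finset.mem_filter.mp ha).2)
    have h2 := Finset.card_filter_add_card_filter_not (s := A)
      (fun a => ((m : ℝ) + 1) * |(((F s₁).eval a : ℤ) : ℝ)| <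
      |((F s₁).coeff m : ℝ)| * (η : ℝ) ^ m)
    rw [← hA₁] at h2
    have h3 : ((A.filter (fun a => ((m : ℝ) + 1) * |(((F s₁).eval a : ℤ) : ℝ)| <
      |((F s₁).coeff m : ℝ)| * (η : ℝ) ^ m)).card : ℝ) ≤ m * η := by exact_mod_cast h1
    have h4 : ((A.filter (fun a => ((m : ℝ) + 1) * |(((F s₁).eval a : ℤ) : ℝ)| <
      |((F s₁).coeff m : ℝ)| * (η : ℝ) ^ m)).card : ℝ) + A₁.card = A.card := by exact_mod_cast h2
    linarith
  -- the content
  obtain ⟨c, F', hc, hcF, hcp⟩ := hctn (Fin m → ι) F ⟨s₁, fun h => by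
    have h1 := hFc s₁
    rw [h, Polynomial.coeff_zero] at h1
    exact (mul_ne_zero hs₁ hGe0) h1.symm⟩
  have hc0 : (c : ℤ) ≠ 0 := by exact_mod_cast hc.ne'
  have hprim : Prim m F' := by
    refine ⟨fun s => ?_, hcp⟩
    have h1 := hFd s
    rw [hcF s, Polynomial.natDegree_C_mul hc0] at h1
    exact h1
  have hcdvd : (c : ℤ) ∣ Ge.det := by
    refine dvd_of_prim (M := μ) (fun s => ?_) hμp
    rw [← hFc s, hcF s, Polynomial.coeff_C_mul]
    exact dvd_mul_right _ _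
  have hcle : (c : ℝ) ≤ |(Ge.det : ℝ)| := by
    have h1 : c ≤ Ge.det.natAbs := by
      refine Nat.le_of_dvd (Int.natAbs_pos.mpr hGe0) ?_
      rw [← Int.natCast_dvd_natCast, Int.dvd_natAbs]
      exact hcdvd
    have h2 : (c : ℝ) ≤ (Ge.det.natAbs : ℝ) := by exact_mod_cast h1
    rwa [Nat.cast_natAbs, Int.cast_abs] at h2
  -- the lines
  have hlines : ∀ a : ℤ, ∃ D : ℕ, a ∈ A → (0 < D ∧ (D : ℤ) ∣ Δ ∧ (∀ s, (D : ℤ) ∣ (F s).eval a) ∧
      ∀ s : Fin m → ι, |(((F s).eval a : ℤ) : ℝ)| * cnt (Lat g (pt g (w + a • e))) N 8 ≤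
        (24 * ((m : ℝ) + 1)) ^ m * (∏ i, (N (s i) : ℝ)) * D) := by
    intro a
    by_cases ha : a ∈ A
    · obtain ⟨h1, h2, h3, h4⟩ := hA a ha
      obtain ⟨D, hD⟩ := one_line hfac hidx hply hN hwe hP h2 h4 (hΔ a)
      rw [← hF] at hD
      exact ⟨D, fun _ => hD⟩
    · exact ⟨0, fun h => absurd h ha⟩
  choose D hD using hlines
  -- the arithmetic lemma
  have hmy : (1 : ℝ) ≤ m * y := by
    have : (1 : ℝ) ≤ y := by exact_mod_cast (by omega : 1 ≤ y)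
    nlinarith
  have hmyk : (m : ℝ) * y ≤ ((m : ℝ) * y) ^ k := by
    have := pow_le_pow_right₀ hmy hk
    rwa [pow_one] at this
  have hy0 : (0 : ℝ) ≤ y := Nat.cast_nonneg y
  have hylem : (y : ℝ) ≤ m * y := le_mul_of_one_le_left hy0 hmr
  obtain ⟨a, haA₁, hGa⟩ := hari m (Fin m → ι) F' R y Z k Δ A₁ (fun a => D a / Nat.gcd (D a) c)
    (δ / 2) hprim hm hZ hy (by linarith) hΔ0 (fun a ha => (hA a (hA₁A ha)).1)
    (fun a ha => by
      obtain ⟨h1, h2, h3, -⟩ := hD a (hA₁A ha)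
      have hgd : Nat.gcd (D a) c ∣ D a := Nat.gcd_dvd_left _ _
      have hg0 : 0 < Nat.gcd (D a) c := Nat.gcd_pos_of_pos_left _ h1
      refine ⟨Nat.div_pos (Nat.le_of_dvd h1 hgd) hg0, ?_, ?_⟩
      · exact (Int.natCast_dvd_natCast.mpr (Nat.div_dvd_of_dvd hgd)).trans h2
      · intro s
        have h4 : ((D a : ℕ) : ℤ) ∣ (c : ℤ) * (F' s).eval a := by
          have := h3 s
          rw [hcF s, Polynomial.eval_mul, Polynomial.eval_C] at this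
          exact this
        rw [← Int.dvd_natAbs, Int.natCast_dvd_natCast]
        rw [← Int.dvd_natAbs, Int.natCast_dvd_natCast, Int.natAbs_mul, Int.natAbs_natCast] at h4
        have h5 : Nat.Coprime (D a / Nat.gcd (D a) c) (c / Nat.gcd (D a) c) :=
          Nat.coprime_div_gcd_div_gcd hg0
        refine h5.dvd_of_dvd_mul_left ?_
        have h6 : D a / Nat.gcd (D a) c ∣ c * ((F' s).eval a).natAbs / Nat.gcd (D a) c :=
          Nat.div_dvd_div hgd h4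
        rwa [Nat.mul_div_right_comm (Nat.gcd_dvd_right _ _)] at h6)
    (by rw [← hU]; exact hA₁c)
    (by linarith)
    (by
      rw [← hU]
      have h1 : δ * (y : ℝ) ≤ y := mul_le_of_le_one_left hy0 hδ1
      linarith)
    (by linarith)
    (by
      rw [← hU]
      linarith)
    (by linarith)
    (by
      rw [← hU]
      linarith)
  have haA := hA₁A haA₁
  obtain ⟨hD0, -, -, hD3⟩ := hD a haA
  obtain ⟨-, -, hka, -⟩ := hA a haA
  -- the estimates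
  obtain ⟨W, hW⟩ : ∃ W : ℝ, W = ((Z : ℝ) ^ (m * (m + 1) / 2)) ^ k := ⟨_, rfl⟩
  obtain ⟨Pr, hPr⟩ : ∃ Pr : ℝ, Pr = ∏ i, (N (s₁ i) : ℝ) := ⟨_, rfl⟩
  obtain ⟨B, hB⟩ : ∃ B : ℝ, B = (24 * ((m : ℝ) + 1)) ^ m := ⟨_, rfl⟩
  have hPr0 : 0 < Pr := by
    rw [hPr]
    exact hprod s₁
  have hB0 : 0 < B := by
    rw [hB]
    positivity
  have hW0 : 0 < W := by
    rw [hW]
    have : (0 : ℝ) < Z := by exact_mod_cast (by omega : 0 < Z)
    positivity
  have hgde : 0 < |(Ge.det : ℝ)| := abs_pos.mpr (by exact_mod_cast hGe0)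
  have hDle : (D a : ℝ) ≤ W * |(Ge.det : ℝ)| := by
    have h1 : D a ≤ (D a / Nat.gcd (D a) c) * c := by
      calc D a = D a / Nat.gcd (D a) c * Nat.gcd (D a) c :=
            (Nat.div_mul_cancel (Nat.gcd_dvd_left _ _)).symm
        _ ≤ D a / Nat.gcd (D a) c * c :=
            Nat.mul_le_mul_left _ (Nat.gcd_le_right _ hc)
    have h2 : D a ≤ (Z ^ (m * (m + 1) / 2)) ^ k * c :=
      h1.trans (Nat.mul_le_mul_right _ hGa)
    have h3 : (D a : ℝ) ≤ W * c := by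
      rw [hW]
      exact_mod_cast h2
    exact h3.trans (mul_le_mul_of_nonneg_left hcle hW0.le)
  have hnot : |((F s₁).coeff m : ℝ)| * (η : ℝ) ^ m ≤
      ((m : ℝ) + 1) * |(((F s₁).eval a : ℤ) : ℝ)| := by
    rw [hA₁] at haA₁
    exact not_lt.mp (Finset.mem_filter.mp haA₁).2
  rw [hFc s₁, Int.cast_mul, abs_mul] at hnot
  have h10 : |(((F s₁).eval a : ℤ) : ℝ)| * k₀ ≤ B * Pr * D a := by
    refine le_trans (mul_le_mul_of_nonneg_left hka (abs_nonneg _)) ?_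
    rw [hB, hPr]
    exact hD3 s₁
  have h11 : |(μ s₁ : ℝ)| * (η : ℝ) ^ m * k₀ ≤ ((m : ℝ) + 1) * B * Pr * W := by
    have h12 : |(μ s₁ : ℝ)| * |(Ge.det : ℝ)| * (η : ℝ) ^ m * k₀ ≤
        ((m : ℝ) + 1) * (B * Pr * (W * |(Ge.det : ℝ)|)) := by
      calc |(μ s₁ : ℝ)| * |(Ge.det : ℝ)| * (η : ℝ) ^ m * k₀ ≤
          ((m : ℝ) + 1) * |(((F s₁).eval a : ℤ) : ℝ)| * k₀ :=
            mul_le_mul_of_nonneg_right hnot hk₀.le
        _ = ((m : ℝ) + 1) * (|(((F s₁).eval a : ℤ) : ℝ)| * k₀) := by ring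
        _ ≤ ((m : ℝ) + 1) * (B * Pr * D a) := mul_le_mul_of_nonneg_left h10 (by positivity)
        _ ≤ ((m : ℝ) + 1) * (B * Pr * (W * |(Ge.det : ℝ)|)) :=
            mul_le_mul_of_nonneg_left (mul_le_mul_of_nonneg_left hDle (by positivity))
              (by positivity)
    have h13 : (|(μ s₁ : ℝ)| * (η : ℝ) ^ m * k₀) * |(Ge.det : ℝ)| ≤
        (((m : ℝ) + 1) * B * Pr * W) * |(Ge.det : ℝ)| := by
      calc (|(μ s₁ : ℝ)| * (η : ℝ) ^ m * k₀) * |(Ge.det : ℝ)| =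
          |(μ s₁ : ℝ)| * |(Ge.det : ℝ)| * (η : ℝ) ^ m * k₀ := by ring
        _ ≤ _ := h12
        _ = (((m : ℝ) + 1) * B * Pr * W) * |(Ge.det : ℝ)| := by ring
    exact le_of_mul_le_mul_right h13 hgde
  have h14 : Pr ≤ (m : ℝ) ^ m * |(μ s₁ : ℝ)| * cnt (Lat g (pt g e)) N 1 := by
    rw [hPr, hμ]
    exact hlow ι N m (Lat g (pt g e)) b s₁ hN hm (by rw [← hμ]; exact hs₁)
      (by rw [← hμ]; exact hmax)
  have hμ0 : 0 < |(μ s₁ : ℝ)| := abs_pos.mpr (by exact_mod_cast hs₁)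
  have h15 : (η : ℝ) ^ m * k₀ ≤
      ((m : ℝ) + 1) * B * (m : ℝ) ^ m * W * cnt (Lat g (pt g e)) N 1 := by
    have h16 : |(μ s₁ : ℝ)| * ((η : ℝ) ^ m * k₀) ≤
        |(μ s₁ : ℝ)| * (((m : ℝ) + 1) * B * (m : ℝ) ^ m * W * cnt (Lat g (pt g e)) N 1) := by
      calc |(μ s₁ : ℝ)| * ((η : ℝ) ^ m * k₀) = |(μ s₁ : ℝ)| * (η : ℝ) ^ m * k₀ := by ring
        _ ≤ ((m : ℝ) + 1) * B * Pr * W := h11
        _ = (((m : ℝ) + 1) * B * W) * Pr := by ring
        _ ≤ (((m : ℝ) + 1) * B * W) *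
            ((m : ℝ) ^ m * |(μ s₁ : ℝ)| * cnt (Lat g (pt g e)) N 1) :=
            mul_le_mul_of_nonneg_left h14 (by positivity)
        _ = |(μ s₁ : ℝ)| * (((m : ℝ) + 1) * B * (m : ℝ) ^ m * W *
            cnt (Lat g (pt g e)) N 1) := by ring
    exact le_of_mul_le_mul_left h16 hμ0
  have h17 : (δ * U / (4 * m)) ^ m ≤ (η : ℝ) ^ m :=
    pow_le_pow_left₀ (by positivity) hη3 m
  calc (δ * U / (4 * m)) ^ m * k₀ ≤ (η : ℝ) ^ m * k₀ :=
        mul_le_mul_of_nonneg_right h17 hk₀.le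
    _ ≤ ((m : ℝ) + 1) * B * (m : ℝ) ^ m * W * cnt (Lat g (pt g e)) N 1 := h15
    _ = ((m : ℝ) + 1) * (24 * ((m : ℝ) + 1) * m) ^ m * ((Z : ℝ) ^ (m * (m + 1) / 2)) ^ k *
        cnt (Lat g (pt g e)) N 1 := by
        rw [hB, hW, mul_pow (24 * ((m : ℝ) + 1)) (m : ℝ) m]
        ring

end Pool.Agent.PCL.H81
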